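import Pool.Agent.Q1.RN.Det
import Mathlib.Analysis.SpecialFunctions.Exp
import Mathlib.Data.Nat.Log
import Mathlib.Data.Finset.Powerset

set_option autoImplicit false

/-! The support of the random digits and the weighted number of representations. -/

namespace Pool.Agent.Q1.RN

open Filter Topology Finset

/-- `R_d(s)`: the sum of `v_{i₁} ⋯ v_{i_d}` over the tuples `1 ≤ i₁ < ⋯ < i_d` with sum `s`, i.e. over the
`d`-element sets of positive integers with sum `s`, where `v_n = p_n (1 - p_n)`. -/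
noncomputable def R (p : ℕ → ℝ) (d s : ℕ) : ℝ :=
  ∑ I ∈ ((Finset.Icc 1 s).powersetCard d).filter (fun I => ∑ i ∈ I, i = s),
    ∏ i ∈ I, (p i * (1 - p i))

/-- The support: in base `H` either `n` is less than `4` times a power of `H` with as many digits as
`n`, or all digits of `n` except the first one vanish. -/
def inA (H n : ℕ) : Prop := n < 4 * H ^ Nat.log H n ∨ H ^ Nat.log H n ∣ n

open Classical in
/-- `p_n = 1/2` on the support and `0` elsewhere. -/
noncomputable def pp (H n : ℕ) : ℝ := if inA H n then 1 / 2 else 0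

theorem inA_of_lt {H j n : ℕ} (_hH : 2 ≤ H) (h1 : H ^ j ≤ n) (h2 : n < H ^ (j + 1))
    (h3 : n < 4 * H ^ j ∨ H ^ j ∣ n) : inA H n := by
  have h : Nat.log H n = j := Nat.log_eq_of_pow_le_of_lt_pow h1 h2
  unfold inA
  rw [h]
  exact h3

theorem log_spec {H n j : ℕ} (h1 : H ^ j ≤ n) (h2 : n < H ^ (j + 1)) : Nat.log H n = j :=
  Nat.log_eq_of_pow_le_of_lt_pow h1 h2

theorem main_count (d s' j M : ℕ) (hd : 3 ≤ d) (hM : (16 * d) ^ j = 8 * M) (hM0 : 1 ≤ M)
    (hj : d ≤ j + 3)
    (h1 : 4 * (8 * M) ≤ s') (h2 : s' < 4 * (16 * d * (8 * M))) :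
    ((M - 1 : ℕ) : ℝ) * (1 / 4) ^ d ≤
      R (pp (16 * d)) d (s' + ∑ e ∈ (Finset.range (d - 3)).image (fun e => (16 * d) ^ e), e) := by
  classical
  set H := 16 * d with hH
  have hH48 : 48 ≤ H := by omega
  set E : Finset ℕ := (Finset.range (d - 3)).image (fun e => H ^ e) with hE
  set σ := ∑ e ∈ E, e with hσ
  -- the big element
  obtain ⟨t, ht1, ht2, hu1, hu2⟩ : ∃ t, 1 ≤ t ∧ t < 4 * H ∧ t * (8 * M) + 3 * (8 * M) ≤ s' ∧
      s' < t * (8 * M) + 5 * (8 * M) := by
    have hq1 : 4 ≤ s' / (8 * M) := by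
      rw [Nat.le_div_iff_mul_le (by omega)]; exact h1
    have hq2 : s' / (8 * M) < 4 * H := by
      rw [Nat.div_lt_iff_lt_mul (by omega)]
      calc s' < _ := h2
        _ = _ := by ring
    have hdm := Nat.div_add_mod s' (8 * M)
    have hml := Nat.mod_lt s' (by omega : 0 < 8 * M)
    set Q := s' / (8 * M) with hQ
    have e1 : 8 * M * Q = Q * (8 * M) := by ring
    rcases Nat.lt_or_ge 4 Q with h | h
    · refine ⟨Q - 4, by omega, by omega, ?_, ?_⟩
      · have : (Q - 4) * (8 * M) = Q * (8 * M) - 4 * (8 * M) := Nat.sub_mul _ _ _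
        have h5 : 4 * (8 * M) ≤ Q * (8 * M) := Nat.mul_le_mul_right _ hq1
        omega
      · have : (Q - 4) * (8 * M) = Q * (8 * M) - 4 * (8 * M) := Nat.sub_mul _ _ _
        have h5 : 4 * (8 * M) ≤ Q * (8 * M) := Nat.mul_le_mul_right _ hq1
        omega
    · have : Q = 4 := by omega
      rw [this] at hdm
      exact ⟨1, le_rfl, by omega, by omega, by omega⟩
  set b := t * (8 * M) with hb
  set u := s' - b with hu
  have hu3 : 24 * M ≤ u := by omega
  have hu4 : u < 40 * M := by omega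
  have hus : u + b = s' := by omega
  -- all elements lie in the support
  have hN : H ^ j = 8 * M := hM
  have hN1 : H ^ (j + 1) = H * (8 * M) := by rw [pow_succ, hN]; ring
  have hN2 : H ^ (j + 1 + 1) = H * (H * (8 * M)) := by rw [pow_succ, hN1]; ring
  have hmidA : ∀ n, 8 * M ≤ n → n < 32 * M → inA H n := by
    intro n hn1 hn2
    refine inA_of_lt (j := j) (by omega) (by omega) ?_ (Or.inl (by omega))
    rw [hN1]
    have : 48 * (8 * M) ≤ H * (8 * M) := Nat.mul_le_mul_right _ hH48
    omega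
  have hbA : inA H b := by
    rcases Nat.lt_or_ge t H with h | h
    · refine inA_of_lt (j := j) (by omega) ?_ ?_ (Or.inr ?_)
      · rw [hN, hb]; exact Nat.le_mul_of_pos_left _ (by omega)
      · rw [hN1, hb]; exact Nat.mul_lt_mul_of_pos_right h (by omega)
      · rw [hN, hb]; exact Dvd.intro_left t rfl
    · refine inA_of_lt (j := j + 1) (by omega) ?_ ?_ (Or.inl ?_)
      · rw [hN1, hb]; exact Nat.mul_le_mul_right _ h
      · rw [hN2, hb]
        have h5 : t < H * H := by nlinarith
        calc t * (8 * M) < H * H * (8 * M) := Nat.mul_lt_mul_of_pos_right h5 (by omega)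
          _ = _ := by ring
      · rw [hN1, hb]
        calc t * (8 * M) < 4 * H * (8 * M) := Nat.mul_lt_mul_of_pos_right ht2 (by omega)
          _ = _ := by ring
  have hbbig : 8 * M ≤ b := by rw [hb]; exact Nat.le_mul_of_pos_left _ (by omega)
  have hbi : ∀ i, 10 * M ≤ i → i < 11 * M → b ≠ i := by
    intro i hi1 hi2 hbi
    rcases Nat.lt_or_ge t 2 with h | h
    · have : t = 1 := by omega
      rw [this] at hb
      omega
    · have : 2 * (8 * M) ≤ b := by rw [hb]; exact Nat.mul_le_mul_right _ h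
      omega
  have hEmem : ∀ e ∈ E, 1 ≤ e ∧ e < 8 * M ∧ inA H e := by
    intro e he
    rw [hE, Finset.mem_image] at he
    obtain ⟨a, ha, rfl⟩ := he
    rw [Finset.mem_range] at ha
    have h5 : H ^ a < H ^ j := Nat.pow_lt_pow_right (by omega) (by omega)
    refine ⟨Nat.one_le_pow _ _ (by omega), by omega, ?_⟩
    exact inA_of_lt (j := a) (by omega) le_rfl (Nat.pow_lt_pow_right (by omega) (by omega))
      (Or.inr dvd_rfl)
  have hEcard : E.card = d - 3 := by
    rw [hE, Finset.card_image_of_injective _ (Nat.pow_right_injective (by omega)), Finset.card_range]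
  -- the family of sets
  let S : Finset ℕ := (Finset.Ico (10 * M) (11 * M)).filter (fun i => u - i ≠ b)
  let F : ℕ → Finset ℕ := fun i => insert b (insert i (insert (u - i) E))
  have hScard : M - 1 ≤ S.card := by
    have h5 : ((Finset.Ico (10 * M) (11 * M)).filter (fun i => ¬ (u - i ≠ b))).card ≤ 1 := by
      rw [Finset.card_le_one]
      intro x hx y hy
      rw [Finset.mem_filter, Finset.mem_Ico, not_not] at hx hy
      omega
    have h6 := Finset.card_filter_add_card_filter_not (s := Finset.Ico (10 * M) (11 * M))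
      (fun i => u - i ≠ b)
    rw [Nat.card_Ico] at h6
    have h7 : S.card = ((Finset.Ico (10 * M) (11 * M)).filter (fun i => u - i ≠ b)).card := rfl
    omega
  have hSmem : ∀ i ∈ S, 10 * M ≤ i ∧ i < 11 * M ∧ u - i ≠ b := by
    intro i hi
    rw [Finset.mem_filter, Finset.mem_Ico] at hi
    exact ⟨hi.1.1, hi.1.2, hi.2⟩
  have hnotE : ∀ n, 8 * M ≤ n → n ∉ E := by
    intro n hn hnE
    have := (hEmem n hnE).2.1
    omega
  have n1 : ∀ i ∈ S, (u - i) ∉ E := fun i hi => hnotE _ (by have := hSmem i hi; omega)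
  have n2 : ∀ i ∈ S, i ∉ insert (u - i) E := by
    intro i hi
    have := hSmem i hi
    rw [Finset.mem_insert]
    push Not
    exact ⟨by omega, hnotE _ (by omega)⟩
  have n3 : ∀ i ∈ S, b ∉ insert i (insert (u - i) E) := by
    intro i hi
    have := hSmem i hi
    rw [Finset.mem_insert, Finset.mem_insert]
    push Not
    exact ⟨hbi i this.1 this.2.1, fun h => this.2.2 h.symm, hnotE _ (by omega)⟩
  have hFsum : ∀ i ∈ S, ∑ x ∈ F i, x = s' + σ := by
    intro i hi
    have := hSmem i hi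
    show ∑ x ∈ insert b (insert i (insert (u - i) E)), x = s' + σ
    rw [Finset.sum_insert (n3 i hi), Finset.sum_insert (n2 i hi), Finset.sum_insert (n1 i hi)]
    omega
  have hFcard : ∀ i ∈ S, (F i).card = d := by
    intro i hi
    show (insert b (insert i (insert (u - i) E))).card = d
    rw [Finset.card_insert_of_notMem (n3 i hi), Finset.card_insert_of_notMem (n2 i hi),
      Finset.card_insert_of_notMem (n1 i hi), hEcard]
    omega
  have hFA : ∀ i ∈ S, ∀ x ∈ F i, 1 ≤ x ∧ inA H x := by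
    intro i hi x hx
    have := hSmem i hi
    have hx' : x = b ∨ x = i ∨ x = u - i ∨ x ∈ E := by
      simpa [F] using hx
    rcases hx' with rfl | rfl | rfl | h
    · exact ⟨by omega, hbA⟩
    · exact ⟨by omega, hmidA _ (by omega) (by omega)⟩
    · exact ⟨by omega, hmidA _ (by omega) (by omega)⟩
    · exact ⟨(hEmem x h).1, (hEmem x h).2.2⟩
  have hFinj : Set.InjOn F S := by
    intro i hi i' hi' hEq
    have h5 := hSmem i hi
    have h6 := hSmem i' hi'
    have h7 : i ∈ F i' := by
      rw [← hEq]; simp [F]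
    have h8 : i = b ∨ i = i' ∨ i = u - i' ∨ i ∈ E := by simpa [F] using h7
    rcases h8 with h | h | h | h
    · exact absurd h.symm (hbi i h5.1 h5.2.1)
    · exact h
    · omega
    · exact absurd h (hnotE i (by omega))
  have hprod : ∀ i ∈ S, ∏ x ∈ F i, (pp H x * (1 - pp H x)) = (1 / 4 : ℝ) ^ d := by
    intro i hi
    rw [← hFcard i hi, ← Finset.prod_const]
    apply Finset.prod_congr rfl
    intro x hx
    have := (hFA i hi x hx).2
    unfold pp
    rw [if_pos this]
    norm_num
  have hpp : ∀ n, 0 ≤ pp H n * (1 - pp H n) := by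
    intro n
    unfold pp
    split_ifs <;> norm_num
  have hsub : S.image F ⊆ ((Finset.Icc 1 (s' + σ)).powersetCard d).filter
      (fun I => ∑ i ∈ I, i = s' + σ) := by
    intro I hI
    rw [Finset.mem_image] at hI
    obtain ⟨i, hi, rfl⟩ := hI
    rw [Finset.mem_filter, Finset.mem_powersetCard]
    refine ⟨⟨?_, hFcard i hi⟩, hFsum i hi⟩
    intro x hx
    rw [Finset.mem_Icc]
    refine ⟨(hFA i hi x hx).1, ?_⟩
    rw [← hFsum i hi]
    exact Finset.single_le_sum (f := fun x => x) (fun _ _ => Nat.zero_le _) hx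
  calc ((M - 1 : ℕ) : ℝ) * (1 / 4) ^ d ≤ (S.card : ℝ) * (1 / 4) ^ d := by
        apply mul_le_mul_of_nonneg_right _ (by positivity)
        exact_mod_cast hScard
    _ = ∑ I ∈ S.image F, ∏ i ∈ I, (pp H i * (1 - pp H i)) := by
        rw [Finset.sum_image hFinj, Finset.sum_congr rfl hprod, Finset.sum_const, nsmul_eq_mul]
    _ ≤ _ := by
        unfold R
        exact Finset.sum_le_sum_of_subset_of_nonneg hsub
          (fun I _ _ => Finset.prod_nonneg fun i _ => hpp i)

/-- `R_d(s)` grows at least linearly. -/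
theorem R_lower (d : ℕ) (hd : 3 ≤ d) : ∃ δ C : ℝ, 0 < δ ∧ ∀ s : ℕ, δ * s - C ≤ R (pp (16 * d)) d s := by
  classical
  set H := 16 * d with hH
  set σ := ∑ e ∈ (Finset.range (d - 3)).image (fun e => H ^ e), e with hσ
  have hRnn : ∀ s, 0 ≤ R (pp H) d s := by
    intro s
    unfold R
    refine Finset.sum_nonneg fun I _ => Finset.prod_nonneg fun i _ => ?_
    unfold pp
    split_ifs <;> norm_num
  refine ⟨(1 / 4) ^ d / (32 * H), (1 / 4) ^ d * (σ + 4 * H ^ (d + 1) + 64 * H), by positivity, fun s => ?_⟩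
  have hH0 : (0 : ℝ) < H := by
    have : 0 < H := by omega
    exact_mod_cast this
  have hH1 : (1 : ℝ) ≤ H := by
    have : 1 ≤ H := by omega
    exact_mod_cast this
  have hq : (0 : ℝ) < (1 / 4) ^ d := by positivity
  rcases Nat.lt_or_ge s (σ + 4 * H ^ (d + 1)) with hs | hs
  · refine le_trans ?_ (hRnn s)
    have h1 : (s : ℝ) ≤ σ + 4 * H ^ (d + 1) := by exact_mod_cast hs.le
    have h2 : (1 / 4 : ℝ) ^ d / (32 * H) * s ≤ (1 / 4) ^ d * s := by
      apply mul_le_mul_of_nonneg_right _ (by positivity)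
      apply div_le_self hq.le
      linarith
    have h3 : (1 / 4 : ℝ) ^ d * s ≤ (1 / 4) ^ d * (σ + 4 * H ^ (d + 1)) :=
      mul_le_mul_of_nonneg_left h1 hq.le
    have h4 : (0 : ℝ) ≤ (1 / 4) ^ d * (64 * H) := by positivity
    linarith
  · obtain ⟨s', rfl⟩ : ∃ s', s = s' + σ := ⟨s - σ, by omega⟩
    have hs' : 4 * H ^ (d + 1) ≤ s' := by omega
    set j := Nat.log H (s' / 4) with hj
    have hH2 : 1 < H := by omega
    have hpos : s' / 4 ≠ 0 := by
      have : 1 ≤ H ^ (d + 1) := Nat.one_le_pow _ _ (by omega)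
      omega
    have hj1 : H ^ j ≤ s' / 4 := Nat.pow_log_le_self H hpos
    have hj2 : s' / 4 < H ^ (j + 1) := Nat.lt_pow_succ_log_self hH2 _
    have hjd : d + 1 ≤ j := by
      rw [hj]
      apply Nat.le_log_of_pow_le hH2
      omega
    obtain ⟨M, hM⟩ : ∃ M, H ^ j = 8 * M := by
      obtain ⟨j', hj'⟩ : ∃ j', j = j' + 1 := ⟨j - 1, by omega⟩
      refine ⟨H ^ j' * (2 * d), ?_⟩
      rw [hj', pow_succ, hH]; ring
    have hM0 : 1 ≤ M := by
      have : 1 ≤ H ^ j := Nat.one_le_pow _ _ (by omega)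
      omega
    have e2 : H ^ (j + 1) = H * (8 * M) := by rw [pow_succ, hM]; ring
    have hlt : s' < 4 * (H * (8 * M)) := by
      rw [e2] at hj2
      omega
    have key := main_count d s' j M hd hM hM0 (by omega) (by omega) hlt
    refine le_trans ?_ key
    have h5 : (s' : ℝ) ≤ 32 * H * M := by
      have : s' < 4 * (H * (8 * M)) := by rw [e2] at hj2; omega
      have h6 : s' ≤ 32 * H * M := by
        calc s' ≤ 4 * (H * (8 * M)) := this.le
          _ = _ := by ring
      exact_mod_cast h6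
    have h7 : ((M : ℝ)) - 1 ≤ ((M - 1 : ℕ) : ℝ) := by
      rw [Nat.cast_sub hM0]; simp
    have h8 : (1 / 4 : ℝ) ^ d / (32 * H) * ((s' + σ : ℕ) : ℝ) ≤ (1 / 4) ^ d * (M + σ) := by
      rw [div_mul_eq_mul_div, div_le_iff₀ (by positivity)]
      push_cast
      have h9 : (0 : ℝ) ≤ σ := by positivity
      have h10 : (s' : ℝ) + σ ≤ (M + σ) * (32 * H) := by nlinarith
      calc (1 / 4 : ℝ) ^ d * (s' + σ) ≤ (1 / 4) ^ d * ((M + σ) * (32 * H)) :=
            mul_le_mul_of_nonneg_left h10 hq.le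
        _ = _ := by ring
    have h11 : (0 : ℝ) ≤ (1 / 4) ^ d * (4 * H ^ (d + 1)) := by positivity
    have h12 : (1 / 4 : ℝ) ^ d ≤ (1 / 4) ^ d * (64 * H) := by nlinarith
    nlinarith

theorem summable_R (d : ℕ) (hd : 3 ≤ d) (c : ℝ) (hc : 0 < c) :
    Summable (fun s : ℕ => (s : ℝ) * Real.exp (-(c * R (pp (16 * d)) d s))) := by
  obtain ⟨δ, C, hδ, h⟩ := R_lower d hd
  have h1 := (Real.summable_pow_mul_exp_neg_nat_mul 1 (by positivity : 0 < c * δ)).mul_left
    (Real.exp (c * C))
  refine Summable.of_nonneg_of_le (fun s => by positivity) (fun s => ?_) h1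
  have h2 : Real.exp (-(c * R (pp (16 * d)) d s)) ≤ Real.exp (c * C) * Real.exp (-(c * δ) * s) := by
    rw [← Real.exp_add]
    apply Real.exp_le_exp.2
    nlinarith [h s]
  calc (s : ℝ) * Real.exp (-(c * R (pp (16 * d)) d s))
      ≤ s * (Real.exp (c * C) * Real.exp (-(c * δ) * s)) :=
        mul_le_mul_of_nonneg_left h2 (by positivity)
    _ = _ := by rw [pow_one]; ring

end Pool.Agent.Q1.RN
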