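import Mathlib.Analysis.SpecificLimits.Basic
import Mathlib.Topology.Algebra.InfiniteSum.Real
import Mathlib.Topology.Algebra.InfiniteSum.NatInt
import Mathlib.Analysis.SpecialFunctions.Exp
import Mathlib.Tactic

set_option autoImplicit false

/-! Digits of `x ^ d` when the binary expansion of `x` has a long block of zeros. -/

namespace Pool.Agent.Q1.RN

open Filter Topology Finset

/-- The digit number `n` (`n ≥ 1` after the point) of the real number `y` in base `b`. -/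
noncomputable def digit (b : ℕ) (y : ℝ) (n : ℕ) : ℤ := ⌊(b : ℝ) ^ n * y⌋ % b

/-- `y` is normal in base `b`: every word `w` of `k ≥ 1` digits starts at a proportion `b^(-k)` of the
positions `1 ≤ n ≤ N`, as `N → ∞`. -/
def NormalBase (b : ℕ) (y : ℝ) : Prop :=
  ∀ (k : ℕ) (w : ℕ → ℕ), 1 ≤ k → (∀ i < k, w i < b) →
    Tendsto (fun N : ℕ =>
      ({n : ℕ | 1 ≤ n ∧ n ≤ N ∧ ∀ i < k, digit b y (n + i) = w i}.ncard : ℝ) / N)
      atTop (𝓝 (1 / (b : ℝ) ^ k))

/-- `y` is absolutely normal. -/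
def AbsNormal (y : ℝ) : Prop := ∀ b : ℕ, 2 ≤ b → NormalBase b y

/-- `∑_{n ≥ 1} a_n 2^(-n)` -/
noncomputable def val (a : ℕ → ℝ) : ℝ := ∑' n : ℕ, a (n + 1) * (1 / 2) ^ (n + 1)

theorem summable_val {a : ℕ → ℝ} (ha : ∀ n, a n = 0 ∨ a n = 1) :
    Summable (fun n : ℕ => a (n + 1) * (1 / 2 : ℝ) ^ (n + 1)) := by
  refine Summable.of_nonneg_of_le (fun n => ?_) (fun n => ?_)
    ((summable_geometric_of_lt_one (by norm_num : (0 : ℝ) ≤ 1 / 2) (by norm_num)))
  · rcases ha (n + 1) with h | h <;> rw [h] <;> positivity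
  · have h2 : (1 / 2 : ℝ) ^ (n + 1) ≤ (1 / 2) ^ n := by
      rw [pow_succ]
      have : (0 : ℝ) ≤ (1 / 2) ^ n := by positivity
      linarith
    rcases ha (n + 1) with h | h <;> rw [h]
    · simp
    · rw [one_mul]; exact h2

theorem val_nonneg {a : ℕ → ℝ} (ha : ∀ n, a n = 0 ∨ a n = 1) : 0 ≤ val a := by
  unfold val
  refine tsum_nonneg fun n => ?_
  rcases ha (n + 1) with h | h <;> rw [h] <;> positivity

theorem val_le_one {a : ℕ → ℝ} (ha : ∀ n, a n = 0 ∨ a n = 1) : val a ≤ 1 := by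
  unfold val
  have h1 : ∑' n : ℕ, a (n + 1) * (1 / 2 : ℝ) ^ (n + 1) ≤ ∑' n : ℕ, (1 / 2 : ℝ) ^ (n + 1) := by
    refine (summable_val ha).tsum_le_tsum (fun n => ?_) ?_
    · have : (0 : ℝ) ≤ (1 / 2) ^ (n + 1) := by positivity
      rcases ha (n + 1) with h | h <;> rw [h]
      · simp
      · simp
    · exact (summable_nat_add_iff 1).2
        (summable_geometric_of_lt_one (by norm_num : (0 : ℝ) ≤ 1 / 2) (by norm_num))
  have h2 : ∑' n : ℕ, (1 / 2 : ℝ) ^ (n + 1) = 1 := by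
    have h3 := tsum_geometric_of_lt_one (by norm_num : (0 : ℝ) ≤ 1 / 2) (by norm_num)
    simp_rw [pow_succ]
    rw [tsum_mul_right, h3]
    norm_num
  linarith

/-- splitting off the first `m` digits -/
theorem val_split {a : ℕ → ℝ} (ha : ∀ n, a n = 0 ∨ a n = 1) (m : ℕ) :
    ∃ Z : ℕ, (2 : ℝ) ^ m * val a = Z + val (fun n => a (n + m)) := by
  induction m with
  | zero => exact ⟨0, by simp⟩
  | succ m ih =>
    obtain ⟨Z, hZ⟩ := ih
    have ha' : ∀ n, (fun n => a (n + m)) n = 0 ∨ (fun n => a (n + m)) n = 1 := fun n => ha (n + m)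
    have e : 2 * val (fun n => a (n + m)) = a (1 + m) + val (fun n => a (n + (m + 1))) := by
      unfold val
      rw [(summable_val ha').tsum_eq_zero_add]
      rw [mul_add, ← tsum_mul_left]
      congr 1
      · simp
        ring_nf
        try rfl
      · apply tsum_congr
        intro n
        have : n + 1 + 1 + m = n + 1 + (m + 1) := by ring
        simp only [this]
        rw [pow_succ (1 / 2 : ℝ) (n + 1)]
        ring
    rcases ha (1 + m) with h | h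
    · refine ⟨2 * Z, ?_⟩
      rw [pow_succ, mul_comm ((2 : ℝ) ^ m) 2, mul_assoc, hZ, mul_add, e, h]
      push_cast; ring
    · refine ⟨2 * Z + 1, ?_⟩
      rw [pow_succ, mul_comm ((2 : ℝ) ^ m) 2, mul_assoc, hZ, mul_add, e, h]
      push_cast; ring

/-- leading zeros -/
theorem val_zeros {a : ℕ → ℝ} (ha : ∀ n, a n = 0 ∨ a n = 1) (q : ℕ)
    (h0 : ∀ n, 1 ≤ n → n ≤ q → a n = 0) : val a ≤ (1 / 2) ^ q := by
  have key : ∀ q : ℕ, (∀ n, 1 ≤ n → n ≤ q → a n = 0) →
      val a = (1 / 2) ^ q * val (fun n => a (n + q)) := by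
    intro q
    induction q with
    | zero => intro _; simp
    | succ q ih =>
      intro h
      rw [ih (fun n h1 h2 => h n h1 (by omega))]
      have ha' : ∀ n, (fun n => a (n + q)) n = 0 ∨ (fun n => a (n + q)) n = 1 := fun n => ha (n + q)
      have e : val (fun n => a (n + q)) = (1 / 2) * val (fun n => a (n + (q + 1))) := by
        unfold val
        rw [(summable_val ha').tsum_eq_zero_add]
        have h1 : a (0 + 1 + q) = 0 := h _ (by omega) (by omega)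
        simp only [h1]
        rw [zero_mul, zero_add, ← tsum_mul_left]
        apply tsum_congr
        intro n
        have : n + 1 + 1 + q = n + 1 + (q + 1) := by ring
        simp only [this]
        rw [pow_succ (1 / 2 : ℝ) (n + 1)]
        ring
      rw [e, pow_succ]; ring
  rw [key q h0]
  have h1 := val_le_one (a := fun n => a (n + q)) (fun n => ha (n + q))
  have h2 : (0 : ℝ) ≤ (1 / 2) ^ q := by positivity
  nlinarith

theorem pow_sub_le {x y : ℝ} (hx : 0 ≤ x) (hxy : x ≤ y) (B : ℝ) (hy : y ≤ B) (d : ℕ) :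
    y ^ (d + 1) - x ^ (d + 1) ≤ (d + 1) * (y - x) * B ^ d := by
  have hy0 : 0 ≤ y := hx.trans hxy
  have hB : 0 ≤ B := hy0.trans hy
  induction d with
  | zero => simp
  | succ d ih =>
    have h1 : x ^ (d + 1) ≤ B ^ (d + 1) := pow_le_pow_left₀ hx (hxy.trans hy) _
    have h2 : 0 ≤ y ^ (d + 1) - x ^ (d + 1) := sub_nonneg.2 (pow_le_pow_left₀ hx hxy _)
    have h3 : y ^ (d + 1 + 1) - x ^ (d + 1 + 1) =
        y * (y ^ (d + 1) - x ^ (d + 1)) + (y - x) * x ^ (d + 1) := by ring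
    rw [h3]
    have h4 : y * (y ^ (d + 1) - x ^ (d + 1)) ≤ B * ((d + 1) * (y - x) * B ^ d) :=
      mul_le_mul hy ih h2 hB
    have h5 : (y - x) * x ^ (d + 1) ≤ (y - x) * B ^ (d + 1) :=
      mul_le_mul_of_nonneg_left h1 (sub_nonneg.2 hxy)
    calc _ ≤ B * ((d + 1) * (y - x) * B ^ d) + (y - x) * B ^ (d + 1) := add_le_add h4 h5
      _ = _ := by push_cast; ring

/-- If the digits of `x` at the positions `m + 1, …, m + q` vanish then so do those of `x ^ d` at the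
positions `n` with `m d < n ≤ m + q - d`. -/
theorem digit_pow {a : ℕ → ℝ} (ha : ∀ n, a n = 0 ∨ a n = 1) (d m q : ℕ) (hd : 1 ≤ d)
    (h0 : ∀ n, m + 1 ≤ n → n ≤ m + q → a n = 0) (n : ℕ) (hn1 : m * d < n) (hn2 : n + d ≤ m + q) :
    digit 2 (val a ^ d) n = 0 := by
  obtain ⟨Z, hZ⟩ := val_split ha m
  set τ := val (fun n => a (n + m)) with hτ
  have ha' : ∀ n, (fun n => a (n + m)) n = 0 ∨ (fun n => a (n + m)) n = 1 := fun n => ha (n + m)
  have hτ0 : 0 ≤ τ := val_nonneg ha'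
  have hτ1 : τ ≤ (1 / 2) ^ q := val_zeros ha' q (fun n h1 h2 => h0 (n + m) (by omega) (by omega))
  obtain ⟨e, rfl⟩ : ∃ e, d = e + 1 := ⟨d - 1, by omega⟩
  have hx1 := val_le_one ha
  have hx0 := val_nonneg ha
  -- the error term
  set E : ℝ := ((Z : ℝ) + τ) ^ (e + 1) - (Z : ℝ) ^ (e + 1) with hE
  have hZ0 : (0 : ℝ) ≤ Z := by positivity
  have hE0 : 0 ≤ E := sub_nonneg.2 (pow_le_pow_left₀ hZ0 (by linarith) _)
  have hB : (Z : ℝ) + τ ≤ 2 ^ m := by
    rw [← hZ]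
    have : (0 : ℝ) < 2 ^ m := by positivity
    nlinarith
  have hE1 : E ≤ (e + 1) * τ * (2 ^ m) ^ e := by
    have := pow_sub_le hZ0 (by linarith : (Z : ℝ) ≤ Z + τ) (2 ^ m) hB e
    rw [add_sub_cancel_left] at this
    exact this
  obtain ⟨t, ht⟩ : ∃ t, n = m * (e + 1) + (t + 1) := ⟨n - m * (e + 1) - 1, by omega⟩
  have hval : (2 : ℝ) ^ n * val a ^ (e + 1) = ((2 ^ (t + 1) * Z ^ (e + 1) : ℤ) : ℝ) + 2 ^ (t + 1) * E := by
    rw [ht, pow_add, pow_mul]
    have : ((2 : ℝ) ^ m) ^ (e + 1) * 2 ^ (t + 1) * val a ^ (e + 1) =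
        2 ^ (t + 1) * ((2 : ℝ) ^ m * val a) ^ (e + 1) := by rw [mul_pow]; ring
    rw [this, hZ, hE]
    push_cast; ring
  have hsmall : 2 ^ (t + 1) * E < 1 := by
    have h1 : (2 : ℝ) ^ (t + 1) * E ≤ 2 ^ (t + 1) * ((e + 1) * (1 / 2) ^ q * (2 ^ m) ^ e) := by
      apply mul_le_mul_of_nonneg_left _ (by positivity)
      refine hE1.trans ?_
      have : (0 : ℝ) ≤ (e + 1) := by positivity
      have h3 : (0 : ℝ) ≤ (2 ^ m) ^ e := by positivity
      exact mul_le_mul_of_nonneg_right (mul_le_mul_of_nonneg_left hτ1 this) h3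
    have h2 : (2 : ℝ) ^ (t + 1) * ((e + 1) * (1 / 2) ^ q * (2 ^ m) ^ e) * 2 ^ (e + 1) ≤ (e + 1) := by
      have h4 : (2 : ℝ) ^ (t + 1) * (2 ^ m) ^ e * 2 ^ (e + 1) ≤ 2 ^ q := by
        rw [← pow_mul, ← pow_add, ← pow_add]
        apply pow_le_pow_right₀ (by norm_num)
        have : m * (e + 1) = m * e + m := by ring
        omega
      have h5 : (1 / 2 : ℝ) ^ q * 2 ^ q = 1 := by rw [← mul_pow]; norm_num
      have h6 : (0 : ℝ) ≤ (1 / 2) ^ q := by positivity
      calc (2 : ℝ) ^ (t + 1) * ((e + 1) * (1 / 2) ^ q * (2 ^ m) ^ e) * 2 ^ (e + 1)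
          = (e + 1) * ((1 / 2) ^ q * (2 ^ (t + 1) * (2 ^ m) ^ e * 2 ^ (e + 1))) := by ring
        _ ≤ (e + 1) * ((1 / 2) ^ q * 2 ^ q) := by
          apply mul_le_mul_of_nonneg_left _ (by positivity)
          exact mul_le_mul_of_nonneg_left h4 h6
        _ = e + 1 := by rw [h5, mul_one]
    have h7 : ((e : ℝ) + 1) < 2 ^ (e + 1) := by
      have := Nat.lt_two_pow_self (n := e + 1)
      exact_mod_cast this
    have h8 : (0 : ℝ) < 2 ^ (e + 1) := by positivity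
    by_contra hcon
    push Not at hcon
    have h9 : (1 : ℝ) ≤ 2 ^ (t + 1) * ((e + 1) * (1 / 2) ^ q * (2 ^ m) ^ e) := hcon.trans h1
    nlinarith
  have hfl : ⌊((2 : ℕ) : ℝ) ^ n * val a ^ (e + 1)⌋ = 2 ^ (t + 1) * (Z : ℤ) ^ (e + 1) := by
    rw [Int.floor_eq_iff]
    have hc : ((2 : ℕ) : ℝ) = 2 := by norm_num
    rw [hc, hval]
    have : (0 : ℝ) ≤ 2 ^ (t + 1) * E := by positivity
    constructor
    · push_cast; linarith
    · push_cast at *; linarith
  unfold digit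
  rw [hfl, pow_succ]
  simp [Int.mul_assoc, Int.mul_emod]

/-- If the zero-one sequence `a` vanishes at the positions `4 N ≤ n < 16 d N` for infinitely many `N`, then
`x ^ d` is not normal in base `2`. -/
theorem not_normal {a : ℕ → ℝ} (ha : ∀ n, a n = 0 ∨ a n = 1) (d : ℕ) (hd : 1 ≤ d)
    (h : ∃ᶠ N : ℕ in atTop, ∀ n, 4 * N ≤ n → n < 16 * d * N → a n = 0) :
    ¬ NormalBase 2 (val a ^ d) := by
  intro hnorm
  have h1 := hnorm 1 (fun _ => 0) le_rfl (by simp)
  have h2 : Tendsto (fun N : ℕ => 16 * d * N) atTop atTop :=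
    tendsto_id.const_mul_atTop' (by positivity : 0 < 16 * d)
  have h3 := h1.comp h2
  have h4 : ∀ᶠ N : ℕ in atTop, ((fun N : ℕ =>
      ({n : ℕ | 1 ≤ n ∧ n ≤ N ∧ ∀ i < 1, digit 2 (val a ^ d) (n + i) = ((fun _ => 0 : ℕ → ℕ) i : ℕ)}.ncard : ℝ) / N) ∘
      fun N : ℕ => 16 * d * N) N < 5 / 8 := by
    apply h3.eventually_lt_const
    norm_num
  have h5 : ∀ᶠ N : ℕ in atTop, 1 ≤ N := eventually_ge_atTop 1
  obtain ⟨N, hN, hlt, hN1⟩ := (h.and_eventually (h4.and h5)).exists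
  simp only [Function.comp_apply] at hlt
  have hNd : 1 ≤ d * N := Nat.mul_pos hd hN1
  -- the digits between `(4 N - 1) d + 1` and `16 d N - 1 - d` vanish
  have hsub : ((Finset.Ioc ((4 * N - 1) * d) (16 * d * N - 1 - d) : Finset ℕ) : Set ℕ) ⊆
      {n : ℕ | 1 ≤ n ∧ n ≤ 16 * d * N ∧ ∀ i < 1, digit 2 (val a ^ d) (n + i) = ((fun _ => 0 : ℕ → ℕ) i : ℕ)} := by
    intro n hn
    rw [Finset.mem_coe, Finset.mem_Ioc] at hn
    refine ⟨by omega, by omega, ?_⟩
    intro i hi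
    have hi0 : i = 0 := by omega
    subst hi0
    have h6 : 4 * N ≤ 16 * d * N := by nlinarith
    have := digit_pow ha d (4 * N - 1) (16 * d * N - 4 * N) hd
      (fun n h1 h2 => hN n (by omega) (by omega)) n (by simpa using hn.1) (by omega)
    simpa using this
  have hfin : {n : ℕ | 1 ≤ n ∧ n ≤ 16 * d * N ∧
      ∀ i < 1, digit 2 (val a ^ d) (n + i) = ((fun _ => 0 : ℕ → ℕ) i : ℕ)}.Finite :=
    (Set.finite_Icc 1 (16 * d * N)).subset (fun n hn => ⟨hn.1, hn.2.1⟩)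
  have hcard := Set.ncard_le_ncard hsub hfin
  rw [Set.ncard_coe_finset, Nat.card_Ioc] at hcard
  have hpos : (0 : ℝ) < ((16 * d * N : ℕ) : ℝ) := by
    have : 0 < 16 * d * N := by nlinarith
    exact_mod_cast this
  rw [div_lt_iff₀ hpos] at hlt
  have h7 : (16 * d * N - 1 - d - (4 * N - 1) * d : ℕ) ≥ 12 * d * N - 1 := by
    have e : (4 * N - 1) * d = 4 * (d * N) - d := by
      rw [Nat.sub_mul, one_mul]; ring_nf
    have e2 : 16 * d * N = 16 * (d * N) := by ring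
    have e3 : 12 * d * N = 12 * (d * N) := by ring
    have e4 : d ≤ d * N := Nat.le_mul_of_pos_right d hN1
    rw [e, e2, e3]
    omega
  have h8 : ((12 * d * N - 1 : ℕ) : ℝ) < 5 / 8 * ((16 * d * N : ℕ) : ℝ) :=
    lt_of_le_of_lt (by exact_mod_cast h7.le.trans hcard) hlt
  have h9 : (((12 * d * N : ℕ) : ℝ)) - 1 ≤ ((12 * d * N - 1 : ℕ) : ℝ) := by
    have : 1 ≤ 12 * d * N := by nlinarith
    rw [Nat.cast_sub this]; simp
  have h10 : (1 : ℝ) ≤ d * N := by exact_mod_cast hNd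
  push_cast at h8 h9
  nlinarith

end Pool.Agent.Q1.RN
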